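import Pool.Agent.C78.Final

namespace Pool.Agent.Results.MP_38232e_lc.CostCalculus

open C78

/-- The cost of fan-in.  (1) Every function of cost `D` and size `S` in the three-mode calculus `Calc`
has a `2-AC[m]` circuit (`AC2`) of depth `O(D + log n)` and polynomial size; (2) in particular every
function with a circuit of depth `D` in which all fan-ins are at most `f`, with `D * lg f` in place
of `D` (`lg f ≈ log log f`); (3) every function with a circuit of depth `D` with unbounded OR and
`MOD_m` gates, AND gates of fan-in 2, and at most `t` NOT or `MOD_m` gates on every path, with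
`D + t * lg S` in place of `D`.  (4) For prime powers `m = p ^ k` these costs are optimal: some
functions with circuits of depth `2 t + 1`, AND gates of fan-in `L` and `MOD_m` gates of fan-in
`3 ^ L` are not even approximated by `2-AC[m]` circuits of depth `c t log L`, whatever their size. -/
theorem result :
    (∀ m : ℕ, 2 ≤ m → ∃ C : ℕ,
      (∀ (n D S : ℕ) (g : BF n), Calc m D S g →
        AC2 m (C * (D + Nat.log 2 (n + 1) + 1)) ((S + n + D + 2) ^ C) g) ∧
      (∀ (n f D S : ℕ) (g : BF n), FC m f D S g →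
        AC2 m (C * (D * lg f + Nat.log 2 (n + 1) + 1)) ((S + n + D * lg f + 2) ^ C) g) ∧
      (∀ (n t D S : ℕ) (g : BF n), AltC m t D S g →
        AC2 m (C * (D + t * lg S + Nat.log 2 (n + 1) + 1))
          ((S + n + D + t * lg S + 2) ^ C) g)) ∧
    (∀ p k : ℕ, p.Prime → 1 ≤ k → ∃ C : ℕ, ∀ L t : ℕ, 1 ≤ L → ∃ g : BF (L ^ t),
      BddC (p ^ k) L (3 ^ L) (2 * t + 1) (4 * (t + 1) * L ^ t * 3 ^ L) g ∧
      ∀ (D S : ℕ) (h : BF (L ^ t)), AC2 (p ^ k) D S h → C * (D + 1) ≤ t * Nat.log 2 L →
        2 ^ (L ^ t) ≤ 11 * (Finset.univ.filter (fun x => h x ≠ g x)).card) :=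
  ⟨fun m hm => final1 m hm, fun p k hp hk => lower p k hp hk⟩

end Pool.Agent.Results.MP_38232e_lc.CostCalculus
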